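import Mathlib

open scoped ENNReal NNReal

namespace Pool.Agent.Results.MP_c087c9_gt.Ray

/-- surjective span -/
noncomputable def surjSpan (X : Type) [MetricSpace X] : ℝ≥0∞ :=
  ⨆ (C : Set (X × X)) (_ : IsConnected C)
    (_ : Prod.fst '' C = Set.univ ∧ Prod.snd '' C = Set.univ),
    ⨅ p ∈ C, edist p.1 p.2

/-- surjective semi-span -/
noncomputable def surjSemiSpan (X : Type) [MetricSpace X] : ℝ≥0∞ :=
  ⨆ (C : Set (X × X)) (_ : IsConnected C)
    (_ : Prod.fst '' C = Set.univ ∨ Prod.snd '' C = Set.univ),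
    ⨅ p ∈ C, edist p.1 p.2

theorem conn : ConnectedSpace ℝ≥0 :=
  Function.Surjective.connectedSpace (f := Real.toNNReal)
    (fun x => ⟨x, Real.toNNReal_coe⟩) continuous_real_toNNReal

theorem span_zero : surjSpan ℝ≥0 = 0 := by
  unfold surjSpan
  simp only [ENNReal.iSup_eq_zero]
  intro C hC hs
  obtain ⟨p, hp, hp0⟩ : (0 : ℝ≥0) ∈ Prod.fst '' C := by rw [hs.1]; trivial
  obtain ⟨q, hq, hq0⟩ : (0 : ℝ≥0) ∈ Prod.snd '' C := by rw [hs.2]; trivial
  have h := hC.isPreconnected.intermediate_value₂ (f := fun z : ℝ≥0 × ℝ≥0 => z.1)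
    (g := fun z : ℝ≥0 × ℝ≥0 => z.2) hp hq continuous_fst.continuousOn
    continuous_snd.continuousOn (by simp [hp0]) (by simp [hq0])
  obtain ⟨z, hz, hz'⟩ := h
  apply le_antisymm _ bot_le
  refine (iInf₂_le z hz).trans ?_
  simp [hz']

theorem semispan_top : surjSemiSpan ℝ≥0 = ⊤ := by
  have := conn
  apply ENNReal.eq_top_of_forall_nnreal_le
  intro r
  unfold surjSemiSpan
  refine le_iSup_of_le (Set.range fun x : ℝ≥0 => (x, x + r)) ?_
  refine le_iSup_of_le (isConnected_range (by fun_prop)) ?_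
  refine le_iSup_of_le (Or.inl ?_) ?_
  · ext x; simp
  · refine le_iInf₂ ?_
    rintro _ ⟨x, rfl⟩
    simp [edist_dist, NNReal.dist_eq]

theorem result : ∃ (X : Type) (_ : MetricSpace X), ConnectedSpace X ∧
    2 * surjSpan X < surjSemiSpan X := by
  refine ⟨ℝ≥0, inferInstance, conn, ?_⟩
  rw [span_zero, semispan_top]
  simp

end Pool.Agent.Results.MP_c087c9_gt.Ray
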